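import Mathlib

set_option autoImplicit false
set_option linter.unusedSectionVars false

namespace Pool.Agent.P.MP_c2f774_co

open Polynomial Finset

/-- distinct nonzero elements `x i` of a field with Euler derivations `D i` -/
structure Dat (K ι : Type) [Field K] [Algebra ℚ K] [DecidableEq ι] where
  x : ι → K
  inj : Function.Injective x
  ne : ∀ i, x i ≠ 0
  D : ι → Derivation ℚ K K
  Dx : ∀ l i, D l (x i) = if l = i then x i else 0

variable {K : Type} [Field K] [Algebra ℚ K]

/-- integration over the unit interval -/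
noncomputable def JJ : K[X] →ₗ[K] K :=
  lsum fun n => (algebraMap ℚ K (1 / (n + 1 : ℚ))) • LinearMap.id

theorem JJ_monomial (n : ℕ) (a : K) :
    JJ (monomial n a) = algebraMap ℚ K (1 / (n + 1 : ℚ)) * a := by
  simp [JJ, lsum_apply, sum_monomial_index]

theorem JJ_derivative (Q : K[X]) : JJ (derivative Q) = Q.eval 1 - Q.eval 0 := by
  induction Q using Polynomial.induction_on' with
  | add p q hp hq => simp only [map_add, hp, hq, eval_add]; ring
  | monomial n a =>
    rw [derivative_monomial, JJ_monomial]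
    cases n with
    | zero => simp
    | succ n =>
      have h : algebraMap ℚ K (1 / (n + 1 : ℚ)) * ((n + 1 : ℕ) : K) = 1 := by
        have h' : (1 / (n + 1 : ℚ)) * ((n + 1 : ℕ) : ℚ) = 1 := by push_cast; field_simp
        rw [← map_natCast (algebraMap ℚ K), ← map_mul, h', map_one]
      simp only [Nat.add_sub_cancel, eval_monomial, one_pow, mul_one, ne_eq,
        Nat.add_eq_zero_iff, one_ne_zero, and_false, not_false_eq_true, zero_pow, mul_zero,
        sub_zero]
      linear_combination a * h

theorem JJ_mem (S : Subalgebra ℚ K) {Q : K[X]} (h : ∀ n, Q.coeff n ∈ S) : JJ Q ∈ S := by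
  simp only [JJ, lsum_apply, Polynomial.sum, LinearMap.smul_apply, LinearMap.id_apply, smul_eq_mul]
  exact S.sum_mem fun n _ => S.mul_mem (S.algebraMap_mem _) (h n)

theorem coef_prod (S : Subalgebra ℚ K) {ι : Type} (s : Finset ι) {b : ι → K}
    (h : ∀ l ∈ s, b l ∈ S) (n : ℕ) : (∏ l ∈ s, (1 - C (b l) * X)).coeff n ∈ S := by
  refine Finset.prod_induction _ (fun Q : K[X] => ∀ n, Q.coeff n ∈ S) ?_ ?_ ?_ n
  · intro a b ha hb n
    rw [coeff_mul]
    exact S.sum_mem fun _ _ => S.mul_mem (ha _) (hb _)
  · intro n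
    rw [coeff_one]; split_ifs
    exacts [S.one_mem, S.zero_mem]
  · intro l hl n
    rw [coeff_sub, coeff_C_mul, coeff_one, coeff_X]
    refine S.sub_mem ?_ (S.mul_mem (h l hl) ?_) <;> split_ifs
    exacts [S.one_mem, S.zero_mem, S.one_mem, S.zero_mem]

/-- constants of a derivation -/
def kerD (D : Derivation ℚ K K) : Subalgebra ℚ K where
  carrier := {a | D a = 0}
  mul_mem' := fun {a b} ha hb => by
    simp only [Set.mem_ofPred_eq] at ha hb ⊢
    rw [D.leibniz, ha, hb]; simp
  add_mem' := fun {a b} ha hb => by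
    simp only [Set.mem_ofPred_eq] at ha hb ⊢
    rw [map_add, ha, hb, add_zero]
  algebraMap_mem' := fun r => D.map_algebraMap r

namespace Dat

variable {ι : Type} [DecidableEq ι] (S : Dat K ι)

def pi (i k : ι) : K := S.x i / (S.x i - S.x k)

theorem sub_ne {i k : ι} (h : i ≠ k) : S.x i - S.x k ≠ 0 := sub_ne_zero.2 fun e => h (S.inj e)

theorem pi_self (i : ι) : S.pi i i = 0 := by simp [pi]

theorem pi_add {i k : ι} (h : i ≠ k) : S.pi i k + S.pi k i = 1 := by
  have h1 := S.sub_ne h
  have h2 := S.sub_ne h.symm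
  simp only [pi]; field_simp; ring

theorem pi_mul {i k l : ι} (h1 : i ≠ k) (h2 : i ≠ l) (h3 : k ≠ l) :
    S.pi i k * S.pi i l = S.pi k l * S.pi i k + S.pi l k * S.pi i l := by
  have := S.sub_ne h1
  have := S.sub_ne h2
  have := S.sub_ne h3
  have := S.sub_ne h3.symm
  simp only [pi]; field_simp; ring

theorem pi_tri {i j l : ι} (h1 : i ≠ j) (h2 : l ≠ i) (h3 : l ≠ j) :
    S.pi l i * (S.pi l j - S.pi i j) = S.pi j i * S.pi l j := by
  have := S.sub_ne h1
  have := S.sub_ne h1.symm
  have := S.sub_ne h2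
  have := S.sub_ne h3
  simp only [pi]; field_simp; ring

theorem D_pi (l i k : ι) : S.D l (S.pi i k) =
    ((if l = i then 1 else 0) - (if l = k then 1 else 0)) * (S.pi i k * S.pi k i) := by
  by_cases h : i = k
  · subst h; simp [pi_self]
  have h1 := S.sub_ne h
  have h2 := S.sub_ne (Ne.symm h)
  simp only [pi, Derivation.leibniz_div, map_sub, S.Dx, smul_eq_mul]
  split_ifs <;> field_simp <;> ring

variable [Fintype ι]

def O : Subalgebra ℚ K := Algebra.adjoin ℚ {a | ∃ i k, a = S.pi i k}

theorem pi_mem (i k : ι) : S.pi i k ∈ S.O := Algebra.subset_adjoin ⟨i, k, rfl⟩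

def p (i : ι) : K := ∏ k ∈ univ.erase i, S.pi i k

theorem p_mem (i : ι) : S.p i ∈ S.O := S.O.prod_mem fun _ _ => S.pi_mem _ _

noncomputable def phi (j k : ι) : K :=
  if k = j then 0 else -JJ (∏ l ∈ (univ.erase j).erase k, (1 - C (S.pi l j) * X))

theorem phi_mem (j k : ι) : S.phi j k ∈ S.O := by
  rw [phi]; split_ifs
  · exact S.O.zero_mem
  · exact S.O.neg_mem (JJ_mem _ (coef_prod _ _ fun l _ => S.pi_mem _ _))

theorem D_phi (j k : ι) : S.D k (S.phi j k) = 0 := by
  rw [phi]; split_ifs with h
  · simp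
  · refine (kerD (S.D k)).neg_mem (JJ_mem _ (coef_prod _ _ fun l hl => ?_))
    change S.D k _ = 0
    rw [D_pi, if_neg (mem_erase.1 hl).1.symm, if_neg h]; simp

noncomputable def V (j : ι) : Derivation ℚ K K := ∑ k, S.phi j k • S.D k

theorem V_apply (j : ι) (a : K) : S.V j a = ∑ k, S.phi j k * S.D k a := by
  rw [V]
  induction (univ : Finset ι) using Finset.induction_on with
  | empty => simp
  | insert k s hk ih => rw [sum_insert hk, sum_insert hk, Derivation.add_apply, ih]; simp

theorem V_div (j : ι) (a : K) : S.V j a = ∑ k, S.D k (S.phi j k * a) := by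
  rw [V_apply]
  refine sum_congr rfl fun k _ => ?_
  rw [Derivation.leibniz, D_phi]; simp

theorem V_pi (j i k : ι) :
    S.V j (S.pi i k) = (S.phi j i - S.phi j k) * (S.pi i k * S.pi k i) := by
  simp only [V_apply, D_pi, ← mul_assoc, ← sum_mul, mul_sub, sum_sub_distrib, mul_ite, mul_one,
    mul_zero, sum_ite_eq', mem_univ, if_true]

theorem V_p' (j i : ι) :
    S.V j (S.p i) = S.p i * ∑ k ∈ univ.erase i, (S.phi j i - S.phi j k) * S.pi k i := by
  rw [p]
  induction (univ.erase i : Finset ι) using Finset.induction_on with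
  | empty => simp
  | insert k s hk ih =>
    rw [prod_insert hk, sum_insert hk, Derivation.leibniz, ih, V_pi]
    simp only [smul_eq_mul]; ring

theorem V_p (j i : ι) : S.V j (S.p i) = S.p i * ((if i = j then 1 else 0) - S.p j) := by
  rw [V_p']
  congr 1
  have hev : ∀ s : Finset ι, j ∉ s →
      (∏ l ∈ s, (1 - C (S.pi l j) * X)).eval 1 = ∏ l ∈ s, S.pi j l := by
    intro s hs
    rw [eval_prod]
    refine prod_congr rfl fun l hl => ?_
    have : j ≠ l := fun e => hs (e ▸ hl)
    simp only [eval_sub, eval_one, eval_mul, eval_C, eval_X, mul_one]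
    linear_combination -S.pi_add this
  have hd : ∀ l, derivative (1 - C (S.pi l j) * X) = -C (S.pi l j) := fun l => by simp
  by_cases h : i = j
  · subst h
    have h1 := JJ_derivative (∏ l ∈ univ.erase i, (1 - C (S.pi l i) * X))
    rw [hev _ (notMem_erase _ _), derivative_prod_finset, map_sum] at h1
    have h2 : (∏ l ∈ univ.erase i, (1 - C (S.pi l i) * X)).eval 0 = 1 := by
      simp [eval_prod]
    rw [h2] at h1
    rw [if_pos rfl, p, ← neg_sub, ← h1, ← sum_neg_distrib]
    refine sum_congr rfl fun k hk => ?_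
    rw [hd, phi, phi, if_pos rfl, if_neg (mem_erase.1 hk).1, mul_neg, mul_comm _ (C _),
      ← smul_eq_C_mul, map_neg, map_smul, smul_eq_mul]
    ring
  · set s := (univ.erase j).erase i with hs
    have hj : j ∉ s := fun e => notMem_erase j univ (mem_of_mem_erase e)
    have h1 := JJ_derivative (X * ∏ l ∈ s, (1 - C (S.pi l j) * X))
    rw [derivative_mul, derivative_X, one_mul, eval_mul, eval_mul, eval_X, eval_X, hev _ hj,
      one_mul, zero_mul, sub_zero, derivative_prod_finset, mul_sum, map_add, map_sum] at h1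
    have h2 : S.p j = S.pi j i * ∏ l ∈ s, S.pi j l := by
      rw [p, hs, mul_prod_erase _ _ (mem_erase.2 ⟨h, mem_univ _⟩)]
    have h3 : univ.erase i = insert j s := by
      ext l
      simp only [hs, mem_erase, mem_univ, and_true, mem_insert]
      constructor
      · intro hl; by_cases e : l = j
        exacts [Or.inl e, Or.inr ⟨hl, e⟩]
      · rintro (rfl | e)
        exacts [Ne.symm h, e.1]
    rw [if_neg h, h3, sum_insert hj, h2, ← h1, zero_sub, mul_add, mul_sum, neg_add,
      ← sum_neg_distrib]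
    congr 1
    · rw [phi, phi, if_neg h, if_pos rfl]; ring
    · refine sum_congr rfl fun k hk => ?_
      have hki : k ≠ i := (mem_erase.1 hk).1
      have hkj : k ≠ j := (mem_erase.1 (mem_erase.1 hk).2).1
      have e1 : ∏ l ∈ s, (1 - C (S.pi l j) * X) =
          (1 - C (S.pi k j) * X) * ∏ l ∈ s.erase k, (1 - C (S.pi l j) * X) :=
        (mul_prod_erase _ _ hk).symm
      have e2 : ∏ l ∈ (univ.erase j).erase k, (1 - C (S.pi l j) * X) =
          (1 - C (S.pi i j) * X) * ∏ l ∈ s.erase k, (1 - C (S.pi l j) * X) := by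
        rw [hs, erase_right_comm (a := i) (b := k)]
        exact (mul_prod_erase _ (fun l => 1 - C (S.pi l j) * X)
          (mem_erase.2 ⟨hki.symm, mem_erase.2 ⟨h, mem_univ _⟩⟩)).symm
      rw [phi, phi, if_neg h, if_neg hkj, ← hs, e1, e2, hd]
      set R := ∏ l ∈ s.erase k, (1 - C (S.pi l j) * X)
      have e3 : ∀ a : K, JJ ((1 - C a * X) * R) = JJ R - a * JJ (X * R) := fun a => by
        rw [sub_mul, one_mul, mul_assoc, ← smul_eq_C_mul, map_sub, map_smul, smul_eq_mul]
      have e4 : JJ (X * (R * -C (S.pi k j))) = -(S.pi k j * JJ (X * R)) := by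
        have : X * (R * -C (S.pi k j)) = -(S.pi k j • (X * R)) := by rw [smul_eq_C_mul]; ring
        rw [this, map_neg, map_smul, smul_eq_mul]
      rw [e3, e3, e4]
      linear_combination JJ (X * R) * S.pi_tri h hki hkj

theorem sum_pi (s : Finset ι) (hs : s.Nonempty) : ∑ i ∈ s, ∏ k ∈ s.erase i, S.pi i k = 1 := by
  have h := congrArg (eval 0) (Lagrange.sum_basis (s := s) (v := fun i => (S.x i)⁻¹)
    (fun a _ b _ e => S.inj (inv_injective e)) hs)
  rw [eval_finsetSum, eval_one] at h
  rw [← h]
  refine sum_congr rfl fun i _ => ?_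
  rw [Lagrange.basis, eval_prod]
  refine prod_congr rfl fun k hk => ?_
  have h1 := S.sub_ne (mem_erase.1 hk).1
  have h2 := S.sub_ne (mem_erase.1 hk).1.symm
  have h3 := S.ne i
  have h4 := S.ne k
  simp only [Lagrange.basisDivisor, eval_mul, eval_C, eval_sub, eval_X, pi]
  rw [inv_sub_inv h3 h4]
  field_simp
  ring

theorem hsym (s : Finset ι) (hs : s.Nonempty) (c : ℕ) :
    ∑ d ∈ piAntidiag s c, ∏ i ∈ s, S.x i ^ d i =
      ∑ i ∈ s, (∏ k ∈ s.erase i, S.pi i k) * S.x i ^ c := by
  have key : ∀ (k : ι) (s : Finset ι) (hk : k ∉ s) (c : ℕ),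
      ∑ d ∈ piAntidiag (cons k s hk) c, ∏ i ∈ cons k s hk, S.x i ^ d i =
        ∑ q ∈ antidiagonal c, S.x k ^ q.1 * ∑ d ∈ piAntidiag s q.2, ∏ i ∈ s, S.x i ^ d i := by
    intro k s hk c
    rw [piAntidiag_cons hk, sum_disjiUnion]
    refine sum_congr rfl fun q _ => ?_
    rw [sum_map, mul_sum]
    refine sum_congr rfl fun d hd => ?_
    have h0 : d k = 0 := by
      by_contra e; exact hk ((mem_piAntidiag.1 hd).2 k e)
    rw [prod_cons]
    simp only [addRightEmbedding_apply, Pi.add_apply, h0, if_true, zero_add]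
    congr 1
    refine prod_congr rfl fun i hi => ?_
    rw [if_neg (fun e : i = k => hk (e ▸ hi)), add_zero]
  induction hs using Finset.Nonempty.cons_induction generalizing c with
  | singleton k =>
    have := key k ∅ (notMem_empty k) c
    rw [cons_empty] at this
    rw [this, sum_eq_single (c, 0)]
    · simp
    · intro q hq hne
      have h1 : q.2 ≠ 0 := fun e => hne (by
        have := mem_antidiagonal.1 hq
        ext <;> simp [← this, e])
      simp [piAntidiag_empty_of_ne_zero h1]
    · simp
  | cons k s hk hs ih =>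
    rw [key]
    simp only [ih]
    induction c with
    | zero =>
      simp only [Nat.antidiagonal_zero, sum_singleton, pow_zero, mul_one, one_mul]
      rw [S.sum_pi s hs, S.sum_pi _ (cons_nonempty _)]
    | succ c ihc =>
      rw [Nat.antidiagonal_succ, sum_cons, sum_map]
      simp only [Function.Embedding.coe_prodMap, Function.Embedding.coeFn_mk, Prod.map_fst,
        Prod.map_snd, Function.Embedding.refl_apply, Nat.succ_eq_add_one, pow_succ',
        mul_assoc (S.x k), pow_zero, one_mul]
      rw [← mul_sum, ihc, sum_cons, sum_cons, mul_add, mul_sum, add_left_comm, ← sum_add_distrib]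
      congr 1
      · ring
      · refine sum_congr rfl fun i hi => ?_
        have hik : i ≠ k := fun e => hk (e ▸ hi)
        have e : (cons k s hk).erase i = cons k (s.erase i) (fun h => hk (mem_of_mem_erase h)) := by
          ext l; simp only [mem_erase, mem_cons]
          constructor
          · rintro ⟨h1, h2 | h2⟩
            exacts [Or.inl h2, Or.inr ⟨h1, h2⟩]
          · rintro (rfl | h)
            exacts [⟨hik.symm, Or.inl rfl⟩, ⟨h.1, Or.inr h.2⟩]
        rw [e, prod_cons]
        have h1 := S.sub_ne hik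
        have h2 : S.pi i k * (S.x i - S.x k) = S.x i := by rw [pi]; field_simp
        linear_combination -(∏ k ∈ s.erase i, S.pi i k) * S.x i ^ c * h2

end Dat

end Pool.Agent.P.MP_c2f774_co
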