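import Pool.Agent.P.MP_c2f774_co.Pol

set_option autoImplicit false

namespace Pool.Agent.P.MP_c2f774_co

open Finset Polynomial

/-- number of tables with row sums `r` and column sums `c` -/
def NT (m n : ℕ) (r : Fin m → ℕ) (c : Fin n → ℕ) : ℕ :=
  ((Fintype.piFinset fun j : Fin n => piAntidiag (univ : Finset (Fin m)) (c j)).filter
    fun M => ∀ i, ∑ j, M j i = r i).card

theorem NT_swap (m n : ℕ) (r : Fin m → ℕ) (c : Fin n → ℕ) : NT m n r c = NT n m c r := by
  refine card_nbij' (fun M i j => M j i) (fun M j i => M i j) ?_ ?_ (fun _ _ => rfl) fun _ _ => rfl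
  all_goals
    intro M hM
    simp only [coe_filter, Fintype.mem_piFinset, mem_piAntidiag, mem_univ, implies_true, and_true,
      Set.mem_ofPred_eq] at hM ⊢
    exact hM.symm

theorem NT_one {m : ℕ} (r : Fin m → ℕ) (c : Fin 1 → ℕ) (h : ∑ i, r i = c 0) : NT m 1 r c = 1 := by
  refine card_eq_one.2 ⟨fun _ => r, ?_⟩
  ext M
  simp only [mem_filter, Fintype.mem_piFinset, mem_piAntidiag, mem_univ, implies_true, and_true,
    mem_singleton, Fin.forall_fin_one, Fin.sum_univ_one]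
  constructor
  · rintro ⟨-, h2⟩
    funext j i
    rw [Subsingleton.elim j 0, h2]
  · rintro rfl
    exact ⟨h, fun _ => rfl⟩

theorem NT_two {a b c d : ℕ} (h : a + b = c + d) :
    NT 2 2 ![a, b] ![c, d] = min (min a b) (min c d) + 1 := by
  have : NT 2 2 ![a, b] ![c, d] = (Icc (a - d) (min a c)).card := by
    refine card_nbij' (fun M => M 0 0) (fun u => ![![u, c - u], ![a - u, d + u - a]]) ?_ ?_ ?_ ?_
    · intro M hM
      simp only [coe_filter, Fintype.mem_piFinset, mem_piAntidiag, mem_univ, implies_true,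
        and_true, Set.mem_ofPred_eq, Fin.forall_fin_two, Fin.sum_univ_two, Matrix.cons_val_zero,
        Matrix.cons_val_one, coe_Icc, Set.mem_Icc] at hM ⊢
      omega
    · intro u hu
      simp only [coe_filter, Fintype.mem_piFinset, mem_piAntidiag, mem_univ, implies_true,
        and_true, Set.mem_ofPred_eq, Fin.forall_fin_two, Fin.sum_univ_two, Matrix.cons_val_zero,
        Matrix.cons_val_one, coe_Icc, Set.mem_Icc] at hu ⊢
      omega
    · intro M hM
      simp only [coe_filter, Fintype.mem_piFinset, mem_piAntidiag, mem_univ, implies_true,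
        and_true, Set.mem_ofPred_eq, Fin.forall_fin_two, Fin.sum_univ_two, Matrix.cons_val_zero,
        Matrix.cons_val_one] at hM
      funext j i
      fin_cases j <;> fin_cases i <;> simp <;> omega
    · intro u _; rfl
  rw [this, Nat.card_Icc]; omega

variable {m : ℕ}

noncomputable def rv (r : Fin m → ℕ) : GG := ∑ i : Fin m, Finsupp.single (i : ℕ) (r i : ℤ)

theorem rv_apply (r : Fin m → ℕ) (i : Fin m) : rv r i = r i := by
  simp [rv, Finsupp.finsetSum_apply, Finsupp.single_apply, Fin.val_inj]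

theorem rv_inj {r r' : Fin m → ℕ} : rv r = rv r' ↔ ∀ i, r' i = r i := by
  refine ⟨fun h i => ?_, fun h => by rw [funext h]⟩
  have := rv_apply r i
  rw [h, rv_apply] at this
  exact_mod_cast this

theorem rv_mul (t : ℕ) (r : Fin m → ℕ) : rv (fun i => t * r i) = t • rv r := by
  simp [rv, smul_sum]

theorem mono_rv (r : Fin m → ℕ) : mono (rv r) = ∏ i, (Sm m).x i ^ r i := by
  rw [rv, mono_sum]
  refine prod_congr rfl fun i _ => ?_
  change _ = mono _ ^ _
  rw [← mono_nsmul]; simp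

theorem NT_co (hm : 0 < m) {n : ℕ} (r : Fin m → ℕ) (c : Fin n → ℕ) :
    (NT m n r c : ℚ) = co (rv r) (∏ j, ∑ i, (Sm m).p i * (Sm m).x i ^ c j) := by
  have h := fun c => (Sm m).hsym univ ⟨⟨0, hm⟩, mem_univ _⟩ c
  simp only [Dat.p, ← h]
  rw [prod_univ_sum, map_sum, NT, card_filter]
  push_cast
  refine sum_congr rfl fun M _ => ?_
  rw [prod_comm]
  simp only [prod_pow_eq_pow_sum]
  rw [← mono_rv, co_mono]
  simp only [rv_inj]

theorem co_eval (r a : Fin m → ℕ) {F : KK} (hF : F ∈ (Sm m).O) {t : ℕ} (ht : 1 ≤ t) :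
    co (rv fun i => t * r i) ((∏ i, (Sm m).x i ^ (t * a i)) * F) =
      (Pl (rv r - rv a) F).eval (t : ℚ) := by
  rw [← mono_rv, co_mono_mul, rv_mul, rv_mul, ← smul_sub,
    Pl_spec (OO_good m _ F (Sm_O m hF)) t ht]

theorem prod_single (t : ℕ) (i : Fin m) (a : ℕ) :
    ∏ l, (Sm m).x l ^ (t * Finsupp.single i a l) = (Sm m).x i ^ (t * a) := by
  rw [prod_eq_single i]
  · simp
  · intro l _ hl; simp [hl]
  · simp

def Cnt (m n : ℕ) (r : Fin m → ℕ) (c : Fin n → ℕ) (P : ℚ[X]) : Prop :=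
  ∀ t : ℕ, 1 ≤ t → P.eval (t : ℚ) = NT m n (fun i => t * r i) (fun j => t * c j)

theorem Cnt.swap {m n : ℕ} {r : Fin m → ℕ} {c : Fin n → ℕ} {P : ℚ[X]} (h : Cnt m n r c P) :
    Cnt n m c r P := fun t ht => by rw [h t ht, NT_swap]

theorem Cnt.uniq {m n : ℕ} {r : Fin m → ℕ} {c : Fin n → ℕ} {P Q : ℚ[X]} (h : Cnt m n r c P)
    (h' : Cnt m n r c Q) : P = Q := poly_uniq fun t ht => (h t ht).trans (h' t ht).symm

theorem cnt_one (hm : 0 < m) (r : Fin m → ℕ) {N : ℕ} (hr : ∑ i, r i = N) :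
    ∑ i, Pl (rv r - rv (Finsupp.single i N)) ((Sm m).p i) = 1 := by
  refine poly_uniq fun t ht => ?_
  have h := NT_co hm (fun i => t * r i) (fun _ : Fin 1 => t * N)
  rw [NT_one _ _ (by rw [← mul_sum, hr]), Fin.prod_univ_one, map_sum] at h
  rw [eval_finsetSum, eval_one, ← Nat.cast_one, h]
  refine sum_congr rfl fun i _ => ?_
  rw [← co_eval _ _ ((Sm m).p_mem i) ht, prod_single, mul_comm]

theorem cnt_two (hm : 0 < m) (r : Fin m → ℕ) (a b : ℕ) : Cnt m 2 r ![a, b] (∑ i, ∑ k,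
    Pl (rv r - rv (Finsupp.single i a + Finsupp.single k b : Fin m →₀ ℕ))
      ((Sm m).p i * (Sm m).p k)) := by
  intro t ht
  rw [NT_co hm, Fin.prod_univ_two, sum_mul_sum, map_sum, eval_finsetSum]
  refine sum_congr rfl fun i _ => ?_
  rw [map_sum, eval_finsetSum]
  refine sum_congr rfl fun k _ => ?_
  rw [← co_eval _ _ ((Sm m).O.mul_mem ((Sm m).p_mem i) ((Sm m).p_mem k)) ht]
  simp only [Finsupp.add_apply, mul_add, pow_add, prod_mul_distrib, prod_single,
    Matrix.cons_val_zero, Matrix.cons_val_one]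
  congr 1; ring

theorem reduction (hm : 0 < m) (n : ℕ) (r : Fin m → ℕ) (hr : ∑ i, r i = n + 2) :
    ∃ P, Cnt m (n + 2) r (fun _ => 1) P ∧ P.coeff 0 = 1 ∧ ∃ Q : ℕ × ℕ → ℚ[X],
      (∀ q, Cnt m 2 r ![q.1 + 1, q.2 + 1] (Q q)) ∧
      2 * P.coeff 1 = ∑ q ∈ antidiagonal n, om q * (Q q).coeff 1 := by
  set L : MvPolynomial (Fin m) ℚ →ₗ[ℚ] ℚ[X] := (MvPolynomial.basisMonomials (Fin m) ℚ).constr ℚ
    fun a => Pl (rv r - rv a) (MvPolynomial.aeval (Sm m).p (MvPolynomial.monomial a (1 : ℚ)))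
    with hL
  have h1 : ∀ a, L (MvPolynomial.monomial a 1) =
      Pl (rv r - rv a) (MvPolynomial.aeval (Sm m).p (MvPolynomial.monomial a (1 : ℚ))) :=
    fun a => by
      have := (MvPolynomial.basisMonomials (Fin m) ℚ).constr_basis ℚ (fun a => Pl (rv r - rv a)
        (MvPolynomial.aeval (Sm m).p (MvPolynomial.monomial a (1 : ℚ)))) a
      rwa [MvPolynomial.coe_basisMonomials] at this
  have h2 : ∀ t : ℕ, 1 ≤ t → ∀ q, (L q).eval (t : ℚ) = co (rv fun i => t * r i)
      (MvPolynomial.aeval (fun i => (Sm m).p i * (Sm m).x i ^ t) q) := by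
    intro t ht q
    induction q using MvPolynomial.induction_on' with
    | monomial a c =>
      rw [show MvPolynomial.monomial a c = c • MvPolynomial.monomial a (1 : ℚ) by
        simp [MvPolynomial.smul_monomial], map_smul, map_smul, map_smul, eval_smul, h1, aeval_mono,
        ← co_eval _ _ ((Sm m).O.prod_mem fun j _ => (Sm m).O.pow_mem ((Sm m).p_mem j) _) ht,
        MvPolynomial.aeval_monomial, map_one, one_mul, Finsupp.prod_fintype _ _ (by simp)]
      simp only [mul_pow, prod_mul_distrib, pow_mul]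
      rw [mul_comm]
    | add p q hp hq => simp only [map_add, eval_add, hp, hq]
  have h3 := cnt_one hm r hr
  refine ⟨L ((∑ i, MvPolynomial.X i) ^ (n + 2)), fun t ht => ?_, ?_, _,
    fun q => cnt_two hm r _ _, ?_⟩
  · rw [h2 t ht, NT_co hm]
    simp
  · have := red0 (Sm m) (fun a => Tm m (rv r - rv a)) ((lcoeff ℚ 0).comp L)
      (fun a => by rw [LinearMap.comp_apply, h1]; rfl) n
    have h4 := congrArg (fun P => P.coeff 0) h3
    simp only [finsetSum_coeff, coeff_one_zero] at h4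
    exact this.trans h4
  · have := red1 (Sm m) (fun a => Tm m (rv r - rv a)) ((lcoeff ℚ 1).comp L)
      (fun a => by rw [LinearMap.comp_apply, h1]; rfl) n
    have h4 := congrArg (fun P => P.coeff 1) h3
    simp only [finsetSum_coeff, coeff_one, one_ne_zero, if_false] at h4
    have h5 : ∑ i, (Tm m (rv r - rv (Finsupp.single i (n + 2)))).lin ((Sm m).p i) = 0 := h4
    rw [h5, mul_zero, sub_zero] at this
    simp only [finsetSum_coeff]
    exact this

theorem birkhoff (n : ℕ) : ∃ P, Cnt (n + 2) (n + 2) (fun _ => 1) (fun _ => 1) P ∧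
    P.coeff 0 = 1 ∧ 4 * P.coeff 1 = ∑ q ∈ antidiagonal n, ∑ q' ∈ antidiagonal n,
      om q * om q' * (min (min (q.1 + 1) (q.2 + 1)) (min (q'.1 + 1) (q'.2 + 1)) : ℕ) := by
  obtain ⟨P, h1, h2, Q, h3, h4⟩ := reduction (m := n + 2) (by omega) n (fun _ => 1) (by simp)
  refine ⟨P, h1, h2, ?_⟩
  rw [show 4 * P.coeff 1 = 2 * (2 * P.coeff 1) by ring, h4, mul_sum]
  refine sum_congr rfl fun q hq => ?_
  have hq' := mem_antidiagonal.1 hq
  obtain ⟨P', k1, -, Q', k3, k4⟩ := reduction (m := 2) (by omega) n ![q.1 + 1, q.2 + 1]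
    (by simp; omega)
  rw [(h3 q).swap.uniq k1, mul_left_comm, k4, mul_sum]
  refine sum_congr rfl fun q' hq' => ?_
  have hq'' := mem_antidiagonal.1 hq'
  have k5 : Q' q' = C ((min (min (q.1 + 1) (q.2 + 1)) (min (q'.1 + 1) (q'.2 + 1)) : ℕ) : ℚ) * X
      + 1 := by
    refine (k3 q').uniq fun t _ => ?_
    have e : ∀ a b : ℕ, (fun i => t * ![a, b] i) = ![t * a, t * b] := fun a b => by
      funext i; fin_cases i <;> rfl
    rw [e, e, NT_two (by rw [← mul_add, ← mul_add]; congr 1; omega), Nat.mul_min_mul_left,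
      Nat.mul_min_mul_left, Nat.mul_min_mul_left]
    simp [mul_comm]
  rw [k5, coeff_add, coeff_C_mul, coeff_X_one, coeff_one]
  simp [mul_assoc]

end Pool.Agent.P.MP_c2f774_co
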