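import Pool.Agent.P.MP_c2f774_co.Count

set_option autoImplicit false

namespace Pool.Agent.P.MP_c2f774_co

open Finset Polynomial

def iv (a : ℕ) : ℚ := ((a + 1 : ℕ) : ℚ)⁻¹

def H2 (n : ℕ) : ℚ := ∑ k ∈ range n, iv k ^ 2

def UU (n : ℕ) : ℚ := ∑ q ∈ antidiagonal n, iv q.1 * harmonic q.2

theorem iv_mul (a : ℕ) : ((a : ℚ) + 1) * iv a = 1 := by rw [iv]; push_cast; field_simp

theorem UU_succ (n : ℕ) : UU (n + 1) = ∑ q ∈ antidiagonal n, iv q.1 * harmonic (q.2 + 1) := by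
  rw [UU, Nat.sum_antidiagonal_succ']; simp

theorem UU_eq (n : ℕ) : UU n = harmonic (n + 1) ^ 2 - H2 (n + 1) := by
  induction n with
  | zero => simp [UU, H2, iv, harmonic]
  | succ n ih =>
    have h1 : UU (n + 1) = UU n + iv (n + 1) * ∑ q ∈ antidiagonal n, om q := by
      rw [UU_succ, UU, mul_sum, ← sum_add_distrib]
      refine sum_congr rfl fun q hq => ?_
      rw [harmonic_succ, ← mem_antidiagonal.1 hq, om, iv, iv]
      push_cast; field_simp; ring
    rw [h1, ih, sum_om, harmonic_succ (n + 1), H2, H2, sum_range_succ _ (n + 1), iv]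
    ring

theorem sum_iv (n : ℕ) : ∑ q ∈ antidiagonal n, iv q.1 = harmonic (n + 1) :=
  Nat.sum_antidiagonal_eq_sum_range_succ (fun a _ => iv a) n

theorem tail_iv {n j : ℕ} (hj : j ≤ n + 1) :
    ∑ q ∈ antidiagonal n, (if j ≤ q.2 then iv q.2 else 0) = harmonic (n + 1) - harmonic j := by
  rw [← Nat.sum_antidiagonal_swap]
  simp only [Prod.snd_swap]
  rw [Nat.sum_antidiagonal_eq_sum_range_succ (fun a _ => if j ≤ a then iv a else 0), ← sum_filter,
    harmonic, harmonic, ← sum_Ico_eq_sub _ hj]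
  refine sum_congr ?_ fun _ _ => rfl
  ext a; simp only [mem_filter, mem_range, mem_Ico]; omega

def gg (q q' : ℕ × ℕ) : ℚ :=
  iv q.1 * (if q.2 ≤ q'.2 then iv q'.2 else 0) + iv q'.1 * (if q'.2 + 1 ≤ q.2 then iv q.2 else 0)

theorem sum_gg (n : ℕ) : ((n : ℚ) + 2) * ∑ q ∈ antidiagonal n, ∑ q' ∈ antidiagonal n, gg q q' =
    2 * ((n + 2) * H2 (n + 1) - harmonic (n + 1)) := by
  simp only [gg, sum_add_distrib]
  rw [sum_comm (f := fun q q' : ℕ × ℕ => iv q'.1 * (if q'.2 + 1 ≤ q.2 then iv q.2 else 0))]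
  simp only [← mul_sum]
  have h1 : ∑ q ∈ antidiagonal n, iv q.1 * ∑ q' ∈ antidiagonal n,
      (if q.2 ≤ q'.2 then iv q'.2 else 0) =
      ∑ q ∈ antidiagonal n, (iv q.1 * harmonic (n + 1) - iv q.1 * harmonic q.2) :=
    sum_congr rfl fun q hq => by
      rw [tail_iv (by have := mem_antidiagonal.1 hq; omega), mul_sub]
  have h2 : ∑ q ∈ antidiagonal n, iv q.1 * ∑ q' ∈ antidiagonal n,
      (if q.2 + 1 ≤ q'.2 then iv q'.2 else 0) =
      ∑ q ∈ antidiagonal n, (iv q.1 * harmonic (n + 1) - iv q.1 * harmonic (q.2 + 1)) :=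
    sum_congr rfl fun q hq => by
      rw [tail_iv (by have := mem_antidiagonal.1 hq; omega), mul_sub]
  rw [h1, h2]
  simp only [sum_sub_distrib, ← sum_mul, sum_iv]
  rw [← UU_succ, ← UU, UU_eq, UU_eq, harmonic_succ (n + 1), H2, H2, sum_range_succ _ (n + 1)]
  have := iv_mul (n + 1)
  push_cast at this
  rw [← iv]
  linear_combination -2 * harmonic (n + 1) * this

theorem point {n : ℕ} {q q' : ℕ × ℕ} (hq : q ∈ antidiagonal n) (hq' : q' ∈ antidiagonal n) :
    om q * om q' * (min (min (q.1 + 1) (q.2 + 1)) (min (q'.1 + 1) (q'.2 + 1)) : ℕ) =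
      ((n : ℚ) + 2) * (gg q q' + gg q q'.swap) := by
  obtain ⟨a, a'⟩ := q
  obtain ⟨b, b'⟩ := q'
  have h1 := mem_antidiagonal.1 hq
  have h2 := mem_antidiagonal.1 hq'
  simp only at h1 h2
  have e1 : (n : ℚ) = a + a' := by exact_mod_cast h1.symm
  have e2 : (b' : ℚ) = a + a' - b := by rw [← e1, ← h2]; push_cast; ring
  have e3 : (a : ℚ) + a' - b + 1 ≠ 0 := by rw [← e2]; positivity
  simp only [om, gg, iv, Prod.swap_prod_mk]
  by_cases c1 : a' ≤ b' <;> by_cases c2 : a' ≤ b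
  · rw [if_pos c1, if_neg (by omega), if_pos c2, if_neg (by omega),
      show min (min (a + 1) (a' + 1)) (min (b + 1) (b' + 1)) = a' + 1 by omega]
    push_cast; rw [e1, e2]; field_simp; ring
  · rw [if_pos c1, if_neg (by omega), if_neg c2, if_pos (by omega),
      show min (min (a + 1) (a' + 1)) (min (b + 1) (b' + 1)) = b + 1 by omega]
    push_cast; rw [e1, e2]; field_simp; ring
  · rw [if_neg c1, if_pos (by omega), if_pos c2, if_neg (by omega),
      show min (min (a + 1) (a' + 1)) (min (b + 1) (b' + 1)) = b' + 1 by omega]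
    push_cast; rw [e1, e2]; field_simp; ring
  · rw [if_neg c1, if_pos (by omega), if_neg c2, if_pos (by omega),
      show min (min (a + 1) (a' + 1)) (min (b + 1) (b' + 1)) = a + 1 by omega]
    push_cast; rw [e1, e2]; field_simp; ring

theorem birkhoff' (n : ℕ) : ∃ P, Cnt (n + 2) (n + 2) (fun _ => 1) (fun _ => 1) P ∧
    P.coeff 0 = 1 ∧ P.coeff 1 = ∑ k ∈ Ico 1 (n + 2), (((n + 2 : ℕ) : ℚ) - k) / (k : ℚ) ^ 2 := by
  obtain ⟨P, h1, h2, h3⟩ := birkhoff n
  refine ⟨P, h1, h2, ?_⟩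
  rw [sum_congr rfl fun q hq => sum_congr rfl fun q' hq' => point hq hq'] at h3
  simp only [← mul_sum, sum_add_distrib] at h3
  simp only [Nat.sum_antidiagonal_swap (f := gg _)] at h3
  rw [mul_add, sum_gg] at h3
  have h4 : ∑ k ∈ Ico 1 (n + 2), (((n + 2 : ℕ) : ℚ) - k) / (k : ℚ) ^ 2 =
      (n + 2) * H2 (n + 1) - harmonic (n + 1) := by
    rw [sum_Ico_eq_sum_range, H2, harmonic, mul_sum, ← sum_sub_distrib]
    refine sum_congr rfl fun k _ => ?_
    rw [iv]; push_cast; field_simp; ring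
  rw [h4]; linarith

theorem count_eq (n t : ℕ) : (univ.filter fun M : Fin n → Fin n → Fin (t + 1) =>
    (∀ i : Fin n, ∑ j : Fin n, ((M i j : ℕ)) = t) ∧
      (∀ j : Fin n, ∑ i : Fin n, ((M i j : ℕ)) = t)).card =
    NT n n (fun _ => t * 1) (fun _ => t * 1) := by
  refine card_bij (fun M _ i j => (M i j : ℕ)) (fun M hM => ?_) (fun M _ M' _ h => ?_)
    fun M hM => ?_
  · simpa [mem_piAntidiag] using hM
  · funext i j; exact Fin.ext (congrFun (congrFun h i) j)
  · simp only [mem_filter, Fintype.mem_piFinset, mem_piAntidiag, mem_univ, implies_true, and_true,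
      mul_one, true_and] at hM ⊢
    refine ⟨fun i j => ⟨M i j, Nat.lt_succ_of_le ?_⟩, hM, rfl⟩
    rw [← hM.1 i]
    exact single_le_sum (f := M i) (fun _ _ => Nat.zero_le _) (mem_univ j)

theorem NT_zero (n : ℕ) : NT n n (fun _ => 0 * 1) (fun _ => 0 * 1) = 1 := by
  rw [← count_eq]; simp

end Pool.Agent.P.MP_c2f774_co
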