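import Pool.Agent.P.MP_c2f774_co.Lin

set_option autoImplicit false

namespace Pool.Agent.P.MP_c2f774_co

open Finset

abbrev GG := ℕ →₀ ℤ

/-- iterated Laurent series -/
def KK : Type := HahnSeries (Lex GG) ℚ

noncomputable instance : Field KK := inferInstanceAs (Field (HahnSeries (Lex GG) ℚ))
noncomputable instance : Algebra ℚ KK := inferInstanceAs (Algebra ℚ (HahnSeries (Lex GG) ℚ))

noncomputable def co (g : GG) : KK →ₗ[ℚ] ℚ := HahnSeries.coeff.linearMap (toLex g)

noncomputable def mono (g : GG) : KK := HahnSeries.single (toLex g) (1 : ℚ)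

theorem co_def (g : GG) (F : HahnSeries (Lex GG) ℚ) : co g F = F.coeff (toLex g) := rfl

theorem mono_add (a b : GG) : mono (a + b) = mono a * mono b := by
  have := HahnSeries.single_mul_single (a := toLex a) (b := toLex b) (r := (1 : ℚ)) (s := 1)
  rw [mul_one] at this
  exact this.symm

theorem mono_zero : mono 0 = 1 := rfl

theorem co_mono_mul (g a : GG) (F : KK) : co g (mono a * F) = co (g - a) F := by
  have := HahnSeries.coeff_single_mul (r := (1 : ℚ)) (x := (F : HahnSeries (Lex GG) ℚ))
    (a := toLex g) (b := toLex a)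
  rw [one_mul] at this
  exact this

theorem co_mono (g a : GG) : co g (mono a) = if g = a then 1 else 0 := by
  rw [mono, co_def, HahnSeries.coeff_single]
  simp

theorem mono_nsmul (n : ℕ) (a : GG) : mono (n • a) = mono a ^ n := by
  induction n with
  | zero => simp [mono_zero]
  | succ n ih => rw [succ_nsmul, mono_add, ih, pow_succ]

theorem mono_sum {ι : Type} (s : Finset ι) (a : ι → GG) :
    mono (∑ i ∈ s, a i) = ∏ i ∈ s, mono (a i) := by
  classical
  induction s using Finset.induction_on with
  | empty => simp [mono_zero]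
  | insert i s hi ih => rw [sum_insert hi, prod_insert hi, mono_add, ih]

theorem co_ext {F F' : KK} (h : ∀ g, co g F = co g F') : F = F' :=
  HahnSeries.ext (funext fun g => h (ofLex g))

theorem co_wf (F : KK) (g v : GG) (hv : 0 < toLex v) (J : ℕ) :
    ∃ j, J ≤ j ∧ co (g - j • v) F = 0 := by
  by_contra h
  push Not at h
  refine Set.isWF_iff_no_descending_seq.1 (HahnSeries.isWF_support F)
    (fun j => toLex (g - (J + j) • v)) (strictAnti_nat_of_succ_lt fun j => ?_)
    fun j => h (J + j) (Nat.le_add_right _ _)
  have : toLex (g - (J + (j + 1)) • v) = toLex (g - (J + j) • v) - toLex v := by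
    rw [← add_assoc, succ_nsmul, ← sub_sub]; rfl
  rw [this]
  exact sub_lt_self _ hv

noncomputable def Dfun (k : ℕ) (F : HahnSeries (Lex GG) ℚ) : HahnSeries (Lex GG) ℚ where
  coeff g := (ofLex g k : ℚ) * F.coeff g
  isPWO_support' := F.isPWO_support.mono fun g hg h => hg (by simp [h])

theorem Dfun_mul (k : ℕ) (F F' : HahnSeries (Lex GG) ℚ) :
    Dfun k (F * F') = F * Dfun k F' + F' * Dfun k F := by
  ext g
  have h1 : (Dfun k F').support ⊆ F'.support := fun g hg h => hg (by simp [Dfun, h])
  have h2 : (Dfun k F).support ⊆ F.support := fun g hg h => hg (by simp [Dfun, h])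
  rw [HahnSeries.coeff_add, mul_comm F', HahnSeries.coeff_mul_right' F'.isPWO_support h1,
    HahnSeries.coeff_mul_left' F.isPWO_support h2, ← sum_add_distrib]
  simp only [Dfun]
  rw [HahnSeries.coeff_mul, mul_sum]
  refine sum_congr rfl fun q hq => ?_
  rw [← (Finset.mem_antidiagonal.1 hq).2.2]
  simp only [ofLex_add, Finsupp.add_apply]
  push_cast; ring

noncomputable def Df (k : ℕ) (F : KK) : KK := Dfun k F

theorem co_Df (k : ℕ) (g : GG) (F : KK) : co g (Df k F) = g k * co g F := rfl

noncomputable def DD (k : ℕ) : Derivation ℚ KK KK :=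
  Derivation.mk'
    { toFun := Df k
      map_add' := fun F F' => co_ext fun g => by simp only [map_add, co_Df, mul_add]
      map_smul' := fun c F => co_ext fun g => by
        simp only [map_smul, co_Df, smul_eq_mul, RingHom.id_apply, mul_left_comm] }
    (Dfun_mul k)

theorem co_DD (k : ℕ) (g : GG) (F : KK) : co g (DD k F) = g k * co g F := rfl

noncomputable def SS : Dat KK ℕ where
  x i := mono (Finsupp.single i 1)
  inj := fun i k h => by
    have h1 := congrArg (co (Finsupp.single i 1)) h
    simp only [co_mono, if_true] at h1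
    by_contra e
    rw [if_neg fun h2 => e (Finsupp.single_left_injective one_ne_zero h2)] at h1
    exact one_ne_zero h1
  ne := fun i h => by
    have h1 := congrArg (co (Finsupp.single i 1)) h
    simp [co_mono] at h1
  D := DD
  Dx := fun l i => co_ext fun g => by
    rw [co_DD, co_mono]
    by_cases h : g = Finsupp.single i 1
    · subst h
      by_cases e : l = i
      · simp [e, co_mono]
      · simp [e]
    · rw [if_neg h, mul_zero]
      split_ifs
      · rw [co_mono, if_neg h]
      · simp

theorem SS_x (i : ℕ) : SS.x i = mono (Finsupp.single i 1) := rfl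

theorem co_D (k : ℕ) (g : GG) (F : KK) : co g (SS.D k F) = g k * co g F := rfl

noncomputable def up (m k : ℕ) : GG := Finsupp.single k 1 - Finsupp.single m 1

theorem up_pos {m k : ℕ} (h : k < m) : 0 < toLex (up m k) := by
  refine Finsupp.Lex.lt_iff.2 ⟨k, fun j hj => ?_, ?_⟩
  · simp [up, hj.ne, (hj.trans h).ne]
  · simp [up, h.ne]

theorem up_self {m k : ℕ} (h : k < m) : up m k m = -1 := by simp [up, h.ne']

theorem pi_rec {m k : ℕ} (h : k < m) : SS.pi m k = 1 + mono (up m k) * SS.pi m k := by
  have h1 : mono (up m k) * SS.x m = SS.x k := by rw [SS_x, SS_x, ← mono_add, up, sub_add_cancel]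
  have h2 := SS.sub_ne h.ne'
  rw [Dat.pi, ← mul_div_assoc, h1]
  field_simp
  ring

theorem co_pi_pow {m k : ℕ} (h : k < m) {a : KK} (ha : SS.D m a = 0) (e : ℕ) (g : GG) :
    co g (a * SS.pi m k ^ e) =
      (if g m ≤ 0 then (Nat.multichoose e (-g m).toNat : ℚ) else 0) * co (g + g m • up m k) a := by
  induction e generalizing g with
  | zero =>
    rw [pow_zero, mul_one]
    by_cases hg : g m = 0
    · simp [hg]
    · have h1 := co_D m g a
      rw [ha, map_zero] at h1
      rw [(mul_eq_zero.1 h1.symm).resolve_left (by exact_mod_cast hg)]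
      split_ifs with h2
      · obtain ⟨n, hn⟩ : ∃ n, (-g m).toNat = n + 1 := ⟨(-g m).toNat - 1, by omega⟩
        rw [hn, Nat.multichoose_zero_succ]; simp
      · simp
  | succ e ih =>
    set d : GG → ℚ := fun g => co g (a * SS.pi m k ^ (e + 1)) -
      (if g m ≤ 0 then (Nat.multichoose (e + 1) (-g m).toNat : ℚ) else 0) *
        co (g + g m • up m k) a with hd
    have h1 : ∀ g, d g = d (g - up m k) := by
      intro g
      have e1 : a * SS.pi m k ^ (e + 1) =
          a * SS.pi m k ^ e + mono (up m k) * (a * SS.pi m k ^ (e + 1)) := by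
        linear_combination a * SS.pi m k ^ e * pi_rec h
      have e2 := congrArg (co g) e1
      rw [map_add, co_mono_mul, ih] at e2
      have e3 : (g - up m k) m = g m + 1 := by simp [up_self h]
      have e4 : g - up m k + (g m + 1) • up m k = g + g m • up m k := by
        rw [add_smul, one_smul]; abel
      simp only [hd, e3, e4]
      rw [e2]
      rcases lt_trichotomy (g m) 0 with h2 | h2 | h2
      · obtain ⟨n, hn⟩ : ∃ n, (-g m).toNat = n + 1 := ⟨(-g m).toNat - 1, by omega⟩
        have hn' : (-(g m + 1)).toNat = n := by omega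
        rw [if_pos h2.le, if_pos h2.le, if_pos (by omega), hn, hn', Nat.multichoose_succ_succ]
        push_cast; ring
      · simp [h2]
      · rw [if_neg (by omega), if_neg (by omega), if_neg (by omega)]; ring
    have h2 : ∀ j : ℕ, d g = d (g - j • up m k) := by
      intro j
      induction j with
      | zero => simp
      | succ j ihj => rw [ihj, h1, succ_nsmul, sub_sub]
    obtain ⟨j, hj, hj'⟩ := co_wf (a * SS.pi m k ^ (e + 1)) g _ (up_pos h) ((-g m).toNat + 1)
    have h3 := h2 j
    have h4 : (g - j • up m k) m = g m + j := by simp [up_self h]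
    simp only [hd, hj', h4] at h3
    rw [if_neg (show ¬ g m + j ≤ 0 by omega), zero_mul, sub_zero] at h3
    exact sub_eq_zero.1 h3

end Pool.Agent.P.MP_c2f774_co
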