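import Pool.Agent.P.MP_c2f774_co.Alg

set_option autoImplicit false
set_option linter.unusedSectionVars false

namespace Pool.Agent.P.MP_c2f774_co

open Finset

variable {K : Type} [Field K] [Algebra ℚ K] {ι : Type} [DecidableEq ι] [Fintype ι]

/-- linear and constant coefficient in a fixed direction -/
structure Dat.Fn (S : Dat K ι) where
  lin : K →ₗ[ℚ] ℚ
  cst : K →ₗ[ℚ] ℚ
  γ : ι → ℚ
  H1 : ∀ k, ∀ F ∈ S.O, lin (S.D k F) = γ k * cst F
  H2 : ∀ i k, ∀ F ∈ S.O, cst (F * (S.pi i k * S.pi k i)) = 0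

namespace Dat

variable {S : Dat K ι}

def Eig (S : Dat K ι) (j : ι) (F : K) (c n : ℕ) : Prop :=
  F ∈ S.O ∧ S.V j F = F * ((c : K) - (n : K) * S.p j)

theorem Eig.mul {j : ι} {F G : K} {c n c' n' : ℕ} (h : S.Eig j F c n) (h' : S.Eig j G c' n') :
    S.Eig j (F * G) (c + c') (n + n') := by
  refine ⟨S.O.mul_mem h.1 h'.1, ?_⟩
  rw [Derivation.leibniz, h.2, h'.2]
  simp only [smul_eq_mul]; push_cast; ring

theorem eig_one (j : ι) : S.Eig j 1 0 0 := ⟨S.O.one_mem, by simp⟩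

theorem eig_self (j : ι) (e : ℕ) : S.Eig j (S.p j ^ e) e e := by
  induction e with
  | zero => simpa using eig_one j
  | succ e ih =>
    rw [pow_succ]
    exact ih.mul ⟨S.p_mem j, by rw [V_p]; simp⟩

theorem eig_ne {j i : ι} (h : i ≠ j) (e : ℕ) : S.Eig j (S.p i ^ e) 0 e := by
  induction e with
  | zero => simpa using eig_one j
  | succ e ih =>
    rw [pow_succ]
    exact ih.mul (c' := 0) ⟨S.p_mem i, by rw [V_p]; simp [h]⟩

theorem eig_prod {j : ι} (s : Finset ι) (hs : j ∉ s) (a : ι → ℕ) :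
    S.Eig j (∏ i ∈ s, S.p i ^ a i) 0 (∑ i ∈ s, a i) := by
  induction s using Finset.induction_on with
  | empty => simpa using eig_one j
  | insert i s hi ih =>
    rw [prod_insert hi, sum_insert hi]
    exact (eig_ne (fun e : i = j => hs (e ▸ mem_insert_self _ _)) _).mul
      (ih fun h => hs (mem_insert_of_mem h))

theorem Fn.cst2 (T : S.Fn) {i k : ι} (h : i ≠ k) {F : K} (hF : F ∈ S.O) :
    T.cst (F * (S.p i * S.p k)) = 0 := by
  have e : F * (S.p i * S.p k) = F * (∏ l ∈ (univ.erase i).erase k, S.pi i l) *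
      (∏ l ∈ (univ.erase k).erase i, S.pi k l) * (S.pi i k * S.pi k i) := by
    rw [p, p, ← mul_prod_erase _ _ (mem_erase.2 ⟨h.symm, mem_univ k⟩),
      ← mul_prod_erase _ _ (mem_erase.2 ⟨h, mem_univ i⟩)]
    ring
  rw [e]
  exact T.H2 _ _ _ (S.O.mul_mem (S.O.mul_mem hF (S.O.prod_mem fun _ _ => S.pi_mem _ _))
    (S.O.prod_mem fun _ _ => S.pi_mem _ _))

theorem Fn.urn (T : S.Fn) {i k j : ι} (h : i ≠ k) {G : K} (hG : G ∈ S.O) {c n : ℕ}
    (hE : S.Eig j (G * (S.p i * S.p k)) c n) :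
    (n : ℚ) * T.lin (S.p j * (G * (S.p i * S.p k))) = c * T.lin (G * (S.p i * S.p k)) := by
  have h1 : T.lin (S.V j (G * (S.p i * S.p k))) = 0 := by
    rw [V_div, map_sum]
    refine sum_eq_zero fun l _ => ?_
    rw [T.H1 _ _ (S.O.mul_mem (S.phi_mem _ _) hE.1), ← mul_assoc,
      T.cst2 h (S.O.mul_mem (S.phi_mem _ _) hG), mul_zero]
  have h2 : S.V j (G * (S.p i * S.p k)) =
      c • (G * (S.p i * S.p k)) - n • (S.p j * (G * (S.p i * S.p k))) := by
    rw [hE.2, nsmul_eq_mul, nsmul_eq_mul]; ring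
  rw [h2, map_sub, map_nsmul, map_nsmul, nsmul_eq_mul, nsmul_eq_mul] at h1
  linarith

theorem Fn.lin3 (T : S.Fn) {i k l : ι} (h1 : i ≠ k) (h2 : i ≠ l) (h3 : k ≠ l) (a : ι → ℕ) :
    T.lin ((∏ j, S.p j ^ a j) * (S.p i * S.p k * S.p l)) = 0 := by
  set G := ∏ j ∈ univ.erase l, S.p j ^ a j with hG
  have hE := eig_prod (S := S) _ (notMem_erase l univ) a
  have key : ∀ e : ℕ, T.lin (S.p l * (S.p l ^ e * G * (S.p i * S.p k))) = 0 := by
    intro e
    have hE' := ((eig_self l e).mul hE).mul ((eig_ne h2 1).mul (eig_ne h3 1))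
    simp only [pow_one] at hE'
    have h4 := T.urn h1 ((eig_self l e).mul hE).1 hE'
    have h5 : ((e + 0 + (0 + 0) : ℕ) : ℚ) * T.lin (S.p l ^ e * G * (S.p i * S.p k)) = 0 := by
      clear h4 hE'
      induction e with
      | zero => simp
      | succ e ih =>
        have hE' := ((eig_self l e).mul hE).mul ((eig_ne h2 1).mul (eig_ne h3 1))
        simp only [pow_one] at hE'
        have h4 := T.urn h1 ((eig_self l e).mul hE).1 hE'
        rw [← hG, ih] at h4
        have h6 := (mul_eq_zero.1 h4).resolve_left (by positivity)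
        rw [show S.p l ^ (e + 1) * G * (S.p i * S.p k) =
          S.p l * (S.p l ^ e * G * (S.p i * S.p k)) by ring, h6, mul_zero]
    rw [← hG, h5] at h4
    exact (mul_eq_zero.1 h4).resolve_left (by positivity)
  rw [← key (a l), ← mul_prod_erase _ _ (mem_univ l), ← hG]
  congr 1; ring

theorem Fn.lin2 (T : S.Fn) {i k : ι} (h : i ≠ k) (a b : ℕ) :
    T.lin (S.p i ^ (a + 1) * S.p k ^ (b + 1)) =
      (a.factorial * b.factorial / (a + b + 1).factorial : ℚ) * T.lin (S.p i * S.p k) := by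
  have step : ∀ {i k : ι}, i ≠ k → ∀ a b : ℕ, ((a + b + 2 : ℕ) : ℚ) *
      T.lin (S.p i ^ (a + 2) * S.p k ^ (b + 1)) =
        ((a + 1 : ℕ) : ℚ) * T.lin (S.p i ^ (a + 1) * S.p k ^ (b + 1)) := by
    intro i k h a b
    have hE := (eig_self (S := S) i (a + 1)).mul (eig_ne h.symm (b + 1))
    have e : S.p i ^ (a + 1) * S.p k ^ (b + 1) = S.p i ^ a * S.p k ^ b * (S.p i * S.p k) := by
      ring
    rw [e] at hE
    have h1 := T.urn h (S.O.mul_mem (S.O.pow_mem (S.p_mem i) a) (S.O.pow_mem (S.p_mem k) b)) hE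
    rw [← e, ← mul_assoc, ← pow_succ'] at h1
    convert h1 using 3
    ring
  induction a with
  | zero =>
    induction b with
    | zero => simp
    | succ b ih =>
      have h1 := step h.symm b 0
      rw [mul_comm (S.p k ^ _), mul_comm (S.p k ^ _), ih] at h1
      have h2 : ((b + 0 + 2 : ℕ) : ℚ) ≠ 0 := by positivity
      refine mul_left_cancel₀ h2 (h1.trans ?_)
      simp only [Nat.factorial_succ, Nat.factorial_zero, zero_add]
      push_cast
      field_simp
      ring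
  | succ a ih =>
    have h1 := step h a b
    rw [ih] at h1
    have h2 : ((a + b + 2 : ℕ) : ℚ) ≠ 0 := by positivity
    refine mul_left_cancel₀ h2 (h1.trans ?_)
    rw [show a + 1 + b + 1 = (a + b + 1) + 1 by ring, Nat.factorial_succ (a + b + 1),
      Nat.factorial_succ a]
    push_cast
    field_simp
    ring

theorem pow_split (S : Dat K ι) (i : ι) (n : ℕ) :
    S.p i ^ (n + 1) = S.p i ^ (n + 2) + ∑ k ∈ univ.erase i, S.p i ^ (n + 1) * S.p k ^ (0 + 1) := by
  have h : ∑ k, S.p k = 1 := S.sum_pi univ ⟨i, mem_univ i⟩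
  rw [← add_sum_erase _ _ (mem_univ i)] at h
  simp only [zero_add, pow_one, ← mul_sum]
  linear_combination -S.p i ^ (n + 1) * h

theorem Fn.lin1 (T : S.Fn) (i : ι) (n : ℕ) : T.lin (S.p i ^ (n + 1)) =
    harmonic n * T.lin (S.p i * S.p i) - (harmonic n - 1) * T.lin (S.p i) := by
  have key : ∀ n : ℕ, T.lin (S.p i ^ (n + 1)) =
      T.lin (S.p i) - harmonic n * ∑ k ∈ univ.erase i, T.lin (S.p i * S.p k) := by
    intro n
    induction n with
    | zero => simp
    | succ n ih =>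
      have h := congrArg T.lin (S.pow_split i n)
      rw [map_add, map_sum, ih, sum_congr rfl fun k hk => T.lin2 (mem_erase.1 hk).1.symm n 0,
        ← mul_sum] at h
      have e : (n.factorial * (0 : ℕ).factorial / (n + 0 + 1).factorial : ℚ) =
          ((n + 1 : ℕ) : ℚ)⁻¹ := by
        rw [add_zero, Nat.factorial_succ]; push_cast; field_simp; simp
      rw [harmonic_succ]
      linear_combination -h - (∑ k ∈ univ.erase i, T.lin (S.p i * S.p k)) * e
  have h1 := key 1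
  rw [show S.p i ^ (1 + 1) = S.p i * S.p i by ring, show harmonic 1 = 1 by simp [harmonic]] at h1
  rw [key, h1]; ring

theorem Fn.cst1 (T : S.Fn) (i : ι) (n : ℕ) : T.cst (S.p i ^ (n + 1)) = T.cst (S.p i) := by
  induction n with
  | zero => simp
  | succ n ih =>
    have h := congrArg T.cst (S.pow_split i n)
    rw [map_add, map_sum, ih, sum_eq_zero, add_zero] at h
    · exact h.symm
    · intro k hk
      rw [← T.cst2 (mem_erase.1 hk).1.symm (S.O.pow_mem (S.p_mem i) n)]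
      congr 1; ring

end Dat

/-! ### powers of a sum modulo products of three distinct variables -/

section ring
variable {R : Type} [CommRing R] (Y : ι → R)

def I3 : Ideal R := Ideal.span {y | ∃ i k l, i ≠ k ∧ i ≠ l ∧ k ≠ l ∧ y = Y i * Y k * Y l}

def WW (n : ℕ) (i k : ι) : R := if i = k then 0 else (Y i + Y k) ^ n - Y i ^ n - Y k ^ n

theorem WW_dvd (n : ℕ) (i k : ι) : Y i * Y k ∣ WW Y (n + 1) i k := by
  rw [WW]; split_ifs
  · exact dvd_zero _
  induction n with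
  | zero => simp
  | succ n ih =>
    have : (Y i + Y k) ^ (n + 1 + 1) - Y i ^ (n + 1 + 1) - Y k ^ (n + 1 + 1) =
        ((Y i + Y k) ^ (n + 1) - Y i ^ (n + 1) - Y k ^ (n + 1)) * (Y i + Y k) +
          Y i * Y k * (Y i ^ n + Y k ^ n) := by ring
    rw [this]
    exact dvd_add (ih.mul_right _) (dvd_mul_right _ _)

theorem pow_sum_mod (n : ℕ) : 2 * (∑ i, Y i) ^ (n + 1) -
    (2 * ∑ i, Y i ^ (n + 1) + ∑ i, ∑ k, WW Y (n + 1) i k) ∈ I3 Y := by
  induction n with
  | zero =>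
    have : ∀ i k, WW Y (0 + 1) i k = 0 := fun i k => by simp [WW]
    simp [this]
  | succ n ih =>
    have h1 : ∑ i, ∑ k, ((∑ l, Y l) - Y i - Y k) * WW Y (n + 1) i k ∈ I3 Y := by
      refine sum_mem fun i _ => sum_mem fun k _ => ?_
      by_cases h : i = k
      · simp [WW, h]
      obtain ⟨c, hc⟩ := WW_dvd Y n i k
      have e : (∑ l, Y l) - Y i - Y k = ∑ l ∈ (univ.erase i).erase k, Y l := by
        rw [← add_sum_erase _ _ (mem_univ i),
          ← add_sum_erase _ _ (mem_erase.2 ⟨Ne.symm h, mem_univ k⟩)]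
        ring
      rw [e, hc, sum_mul]
      refine sum_mem fun l hl => ?_
      rw [show Y l * (Y i * Y k * c) = c * (Y i * Y k * Y l) by ring]
      exact Ideal.mul_mem_left _ _ (Ideal.subset_span
        ⟨i, k, l, h, (mem_erase.1 (mem_erase.1 hl).2).1.symm, (mem_erase.1 hl).1.symm, rfl⟩)
    have h2 : ∀ i k, WW Y (n + 1 + 1) i k = (Y i + Y k) * WW Y (n + 1) i k +
        (Y i ^ (n + 1) * Y k - if i = k then Y i ^ (n + 1 + 1) else 0) +
        (Y k ^ (n + 1) * Y i - if k = i then Y k ^ (n + 1 + 1) else 0) := by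
      intro i k
      by_cases h : i = k
      · subst h; simp [WW]; ring
      · simp only [WW, if_neg h, if_neg (Ne.symm h)]; ring
    have h3 : ∑ i, ∑ k, (Y i ^ (n + 1) * Y k - if i = k then Y i ^ (n + 1 + 1) else 0) =
        (∑ i, Y i ^ (n + 1)) * (∑ i, Y i) - ∑ i, Y i ^ (n + 1 + 1) := by
      simp only [sum_sub_distrib, sum_ite_eq, mem_univ, if_true, sum_mul_sum]
    have h4 : ∑ i, ∑ k, WW Y (n + 1 + 1) i k = ∑ i, ∑ k, (Y i + Y k) * WW Y (n + 1) i k +
        2 * ((∑ i, Y i ^ (n + 1)) * (∑ i, Y i) - ∑ i, Y i ^ (n + 1 + 1)) := by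
      simp only [h2, sum_add_distrib]
      rw [h3, sum_comm (f := fun i k =>
        (Y k ^ (n + 1) * Y i - if k = i then Y k ^ (n + 1 + 1) else 0)), h3]
      ring
    have h5 : ∑ i, ∑ k, ((∑ l, Y l) - Y i - Y k) * WW Y (n + 1) i k =
        (∑ l, Y l) * ∑ i, ∑ k, WW Y (n + 1) i k - ∑ i, ∑ k, (Y i + Y k) * WW Y (n + 1) i k := by
      simp only [mul_sum, ← sum_sub_distrib]
      exact sum_congr rfl fun i _ => sum_congr rfl fun k _ => by ring
    convert add_mem (Ideal.mul_mem_left _ (∑ l, Y l) ih) h1 using 1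
    rw [h4, h5]; ring

theorem WW_eq (n : ℕ) {i k : ι} (h : i ≠ k) : WW Y (n + 2) i k =
    ∑ q ∈ antidiagonal n, (n + 2).choose (q.1 + 1) • (Y i ^ (q.1 + 1) * Y k ^ (q.2 + 1)) := by
  rw [WW, if_neg h, (Commute.all _ _).add_pow', Nat.antidiagonal_succ_succ', sum_cons, sum_cons,
    sum_map]
  simp
  ring

end ring

section red
open MvPolynomial

theorem I3_zero (Λ : MvPolynomial ι ℚ →ₗ[ℚ] ℚ)
    (h : ∀ a i k l, i ≠ k → i ≠ l → k ≠ l → Λ (monomial a 1 * (X i * X k * X l)) = 0)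
    {y : MvPolynomial ι ℚ} (hy : y ∈ I3 (X : ι → MvPolynomial ι ℚ)) : Λ y = 0 := by
  suffices H : ∀ q, Λ (q * y) = 0 by simpa using H 1
  induction hy using Submodule.span_induction with
  | mem y hy =>
    obtain ⟨i, k, l, h1, h2, h3, rfl⟩ := hy
    intro q
    induction q using MvPolynomial.induction_on' with
    | monomial a c =>
      rw [show monomial a c = c • monomial a (1 : ℚ) by simp [smul_monomial], smul_mul_assoc,
        map_smul, h a i k l h1 h2 h3, smul_zero]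
    | add p q hp hq => rw [add_mul, map_add, hp, hq, add_zero]
  | zero => simp
  | add x y _ _ hx hy => intro q; rw [mul_add, map_add, hx, hy, add_zero]
  | smul a x _ hx => intro q; rw [smul_eq_mul, ← mul_assoc, hx]

theorem mono3 (a : ι →₀ ℕ) (i k l : ι) : (monomial a (1 : ℚ) * (X i * X k * X l)) =
    monomial (a + Finsupp.single i 1 + Finsupp.single k 1 + Finsupp.single l 1) 1 := by
  simp only [monomial_add_single, pow_one, mul_assoc]

theorem mono2 (i k : ι) (a b : ℕ) : (X i ^ a * X k ^ b : MvPolynomial ι ℚ) =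
    monomial (Finsupp.single i a + Finsupp.single k b) 1 := by
  rw [monomial_add_single, X_pow_eq_monomial]

theorem aeval_mono (S : Dat K ι) (a : ι →₀ ℕ) :
    aeval S.p (monomial a (1 : ℚ)) = ∏ j, S.p j ^ a j := by
  rw [aeval_monomial, map_one, one_mul, Finsupp.prod_fintype _ _ (by simp)]

theorem aeval3 (S : Dat K ι) (a : ι →₀ ℕ) (i k l : ι) :
    aeval S.p (monomial a (1 : ℚ) * (X i * X k * X l)) =
      (∏ j, S.p j ^ a j) * (S.p i * S.p k * S.p l) := by
  simp only [map_mul, aeval_X, aeval_mono]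

theorem aeval2 (S : Dat K ι) (i k : ι) (a b : ℕ) :
    aeval S.p (X i ^ a * X k ^ b : MvPolynomial ι ℚ) = S.p i ^ a * S.p k ^ b := by
  simp only [map_mul, aeval_X, map_pow]

theorem split_pow (Λ : MvPolynomial ι ℚ →ₗ[ℚ] ℚ)
    (h : ∀ a i k l, i ≠ k → i ≠ l → k ≠ l → Λ (monomial a 1 * (X i * X k * X l)) = 0) (n : ℕ) :
    2 * Λ ((∑ i, X i) ^ (n + 2)) = 2 * ∑ i, Λ (monomial (Finsupp.single i (n + 2)) 1) +
      ∑ i, ∑ k, if i = k then 0 else ∑ q ∈ antidiagonal n, ((n + 2).choose (q.1 + 1) : ℚ) *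
        Λ (monomial (Finsupp.single i (q.1 + 1) + Finsupp.single k (q.2 + 1)) 1) := by
  have h1 := I3_zero Λ h (pow_sum_mod X (n + 1))
  rw [map_sub, map_add, two_mul, two_mul, map_add, map_add, sub_eq_zero, ← two_mul, ← two_mul,
    map_sum, map_sum] at h1
  rw [h1]
  congr 1
  · simp only [X_pow_eq_monomial]
  · refine sum_congr rfl fun i _ => ?_
    rw [map_sum]
    refine sum_congr rfl fun k _ => ?_
    split_ifs with e
    · simp [WW, e]
    · rw [WW_eq _ _ e, map_sum]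
      simp only [map_nsmul, mono2]
      simp only [nsmul_eq_mul]

theorem red0 (S : Dat K ι) (T : (ι →₀ ℕ) → S.Fn) (Λ : MvPolynomial ι ℚ →ₗ[ℚ] ℚ)
    (hΛ : ∀ a, Λ (monomial a 1) = (T a).cst (aeval S.p (monomial a (1 : ℚ)))) (n : ℕ) :
    Λ ((∑ i, X i) ^ (n + 2)) = ∑ i, (T (Finsupp.single i (n + 2))).cst (S.p i) := by
  have h := split_pow Λ (fun a i k l h1 _ _ => by
    rw [mono3, hΛ, ← mono3, aeval3, mul_comm _ (S.p l), ← mul_assoc]
    exact Dat.Fn.cst2 _ h1 (S.O.mul_mem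
      (S.O.prod_mem fun j _ => S.O.pow_mem (S.p_mem j) _) (S.p_mem l))) n
  rw [sum_eq_zero (s := univ) (f := fun i => ∑ k, _), add_zero] at h
  · rw [mul_left_cancel₀ two_ne_zero h]
    refine sum_congr rfl fun i _ => ?_
    rw [hΛ, ← X_pow_eq_monomial, map_pow, aeval_X, Dat.Fn.cst1]
  · refine fun i _ => sum_eq_zero fun k _ => ?_
    split_ifs with e
    · rfl
    refine sum_eq_zero fun q _ => ?_
    rw [hΛ, ← mono2, aeval2,
      show S.p i ^ (q.1 + 1) * S.p k ^ (q.2 + 1) = S.p i ^ q.1 * S.p k ^ q.2 * (S.p i * S.p k) by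
        ring, Dat.Fn.cst2 _ e (S.O.mul_mem (S.O.pow_mem (S.p_mem _) _)
        (S.O.pow_mem (S.p_mem _) _)), mul_zero]

/-- the weight `1/(a+1) + 1/(b+1)` -/
def om (q : ℕ × ℕ) : ℚ := ((q.1 + 1 : ℕ) : ℚ)⁻¹ + ((q.2 + 1 : ℕ) : ℚ)⁻¹

theorem sum_om (n : ℕ) : ∑ q ∈ antidiagonal n, om q = 2 * harmonic (n + 1) := by
  simp only [om, sum_add_distrib]
  rw [← Nat.sum_antidiagonal_swap (f := fun q => ((q.2 + 1 : ℕ) : ℚ)⁻¹), two_mul, harmonic,
    ← Nat.sum_antidiagonal_eq_sum_range_succ (fun a _ => ((a + 1 : ℕ) : ℚ)⁻¹)]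
  simp

theorem choose_om {n : ℕ} {q : ℕ × ℕ} (hq : q ∈ antidiagonal n) :
    ((n + 2).choose (q.1 + 1) : ℚ) *
      (q.1.factorial * q.2.factorial / (q.1 + q.2 + 1).factorial : ℚ) = om q := by
  rw [← mem_antidiagonal.1 hq, show q.1 + q.2 + 2 = (q.1 + 1) + (q.2 + 1) by ring,
    Nat.cast_add_choose, om, show q.1 + 1 + (q.2 + 1) = (q.1 + q.2 + 1) + 1 by ring,
    Nat.factorial_succ (q.1 + q.2 + 1), Nat.factorial_succ q.1, Nat.factorial_succ q.2]
  push_cast
  field_simp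
  ring

theorem red1 (S : Dat K ι) (T : (ι →₀ ℕ) → S.Fn) (Λ : MvPolynomial ι ℚ →ₗ[ℚ] ℚ)
    (hΛ : ∀ a, Λ (monomial a 1) = (T a).lin (aeval S.p (monomial a (1 : ℚ)))) (n : ℕ) :
    2 * Λ ((∑ i, X i) ^ (n + 2)) = ∑ q ∈ antidiagonal n, om q * ∑ i, ∑ k,
      (T (Finsupp.single i (q.1 + 1) + Finsupp.single k (q.2 + 1))).lin (S.p i * S.p k) -
      2 * (harmonic (n + 1) - 1) * ∑ i, (T (Finsupp.single i (n + 2))).lin (S.p i) := by
  rw [split_pow Λ (fun a i k l h1 h2 h3 => by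
    rw [mono3, hΛ, ← mono3, aeval3]
    exact Dat.Fn.lin3 _ h1 h2 h3 _) n]
  have h1 : ∀ i, Λ (monomial (Finsupp.single i (n + 2)) 1) =
      harmonic (n + 1) * (T (Finsupp.single i (n + 2))).lin (S.p i * S.p i) -
        (harmonic (n + 1) - 1) * (T (Finsupp.single i (n + 2))).lin (S.p i) := fun i => by
    rw [hΛ, ← X_pow_eq_monomial, map_pow, aeval_X, Dat.Fn.lin1]
  have h2 : ∀ i k, (if i = k then 0 else ∑ q ∈ antidiagonal n, ((n + 2).choose (q.1 + 1) : ℚ) *
      Λ (monomial (Finsupp.single i (q.1 + 1) + Finsupp.single k (q.2 + 1)) 1)) =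
      ∑ q ∈ antidiagonal n, om q *
        (T (Finsupp.single i (q.1 + 1) + Finsupp.single k (q.2 + 1))).lin (S.p i * S.p k) -
      if i = k then 2 * harmonic (n + 1) * (T (Finsupp.single i (n + 2))).lin (S.p i * S.p i)
      else 0 := by
    intro i k
    split_ifs with e
    · subst e
      rw [← sum_om, sum_mul, ← sum_sub_distrib]
      refine (sum_eq_zero fun q hq => ?_).symm
      rw [← Finsupp.single_add, ← mem_antidiagonal.1 hq,
        show q.1 + 1 + (q.2 + 1) = q.1 + q.2 + 2 by ring, sub_self]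
    · rw [sub_zero]
      refine sum_congr rfl fun q hq => ?_
      rw [hΛ, ← mono2, aeval2, Dat.Fn.lin2 _ e, ← mul_assoc,
        choose_om hq]
  simp only [h1, h2, sum_sub_distrib, sum_ite_eq, mem_univ, if_true, ← mul_sum]
  simp only [mul_sum]
  rw [sum_comm (s := antidiagonal n)]
  simp only [sum_comm (s := antidiagonal n)]
  simp only [← mul_sum]
  ring

end red

end Pool.Agent.P.MP_c2f774_co
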