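import Pool.Agent.P.MP_c2f774_co.Hahn

set_option autoImplicit false

namespace Pool.Agent.P.MP_c2f774_co

open Finset Polynomial

def HasPol (g : GG) (F : KK) (P : ℚ[X]) : Prop := ∀ t : ℕ, 1 ≤ t → co (t • g) F = P.eval (t : ℚ)

theorem poly_uniq {P Q : ℚ[X]} (h : ∀ t : ℕ, 1 ≤ t → P.eval (t : ℚ) = Q.eval (t : ℚ)) :
    P = Q := by
  refine eq_of_infinite_eval_eq _ _ (Set.infinite_of_injective_forall_mem
    (f := fun t : ℕ => ((t + 1 : ℕ) : ℚ)) (fun a b e => by simpa using e) fun t => ?_)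
  exact h (t + 1) (by omega)

theorem HasPol.uniq {g : GG} {F : KK} {P Q : ℚ[X]} (h : HasPol g F P) (h' : HasPol g F Q) :
    P = Q := poly_uniq fun t ht => (h t ht).symm.trans (h' t ht)

def Good (g : GG) : Submodule ℚ KK where
  carrier := {F | ∃ P, HasPol g F P}
  add_mem' := by
    rintro a b ⟨P, hP⟩ ⟨Q, hQ⟩
    exact ⟨P + Q, fun t ht => by rw [map_add, eval_add, hP t ht, hQ t ht]⟩
  zero_mem' := ⟨0, fun t _ => by simp⟩
  smul_mem' := by
    rintro c a ⟨P, hP⟩
    exact ⟨c • P, fun t ht => by rw [map_smul, eval_smul, hP t ht]⟩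

theorem exists_Pl (g : GG) : ∃ L : KK →ₗ[ℚ] ℚ[X], ∀ F ∈ Good g, HasPol g F (L F) := by
  have h : ∀ F : Good g, ∃ P, HasPol g F P := fun F => F.2
  choose P hP using h
  obtain ⟨L, hL⟩ := LinearMap.exists_extend (p := Good g)
    { toFun := P
      map_add' := fun a b => (hP _).uniq fun t ht => by
        rw [Submodule.coe_add, map_add, eval_add, hP a t ht, hP b t ht]
      map_smul' := fun c a => (hP _).uniq fun t ht => by
        rw [Submodule.coe_smul, map_smul, RingHom.id_apply, eval_smul, hP a t ht] }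
  refine ⟨L, fun F hF => ?_⟩
  have : L F = P ⟨F, hF⟩ := congrArg (fun f => f ⟨F, hF⟩) hL
  rw [this]
  exact hP ⟨F, hF⟩

noncomputable def Pl (g : GG) : KK →ₗ[ℚ] ℚ[X] := (exists_Pl g).choose

theorem Pl_spec {g : GG} {F : KK} (h : F ∈ Good g) : HasPol g F (Pl g F) :=
  (exists_Pl g).choose_spec F h

theorem HasPol.eq {g : GG} {F : KK} {P : ℚ[X]} (h : HasPol g F P) : Pl g F = P :=
  (Pl_spec ⟨P, h⟩).uniq h

noncomputable def cs (g : GG) : KK →ₗ[ℚ] ℚ := (lcoeff ℚ 0).comp (Pl g)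
noncomputable def ln (g : GG) : KK →ₗ[ℚ] ℚ := (lcoeff ℚ 1).comp (Pl g)

theorem ln_D {g : GG} {F : KK} (h : F ∈ Good g) (k : ℕ) : ln g (SS.D k F) = g k * cs g F := by
  have h1 : HasPol g (SS.D k F) (C (g k : ℚ) * (X * Pl g F)) := fun t ht => by
    rw [co_D, Pl_spec h t ht]; simp; ring
  simp only [ln, cs, LinearMap.comp_apply, lcoeff_apply, h1.eq, coeff_C_mul, coeff_X_mul]

theorem exists_mc (e : ℕ) : ∃ Q : ℚ[X], ∀ n : ℕ, Q.eval (n : ℚ) = Nat.multichoose (e + 1) n := by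
  refine ⟨C (e.factorial : ℚ)⁻¹ * (descPochhammer ℚ e).comp (X + C (e : ℚ)), fun n => ?_⟩
  rw [Nat.multichoose_eq, show e + 1 + n - 1 = n + e by omega, Nat.choose_symm_add,
    Nat.cast_choose_eq_descPochhammer_div]
  simp [div_eq_inv_mul]

theorem pi_pow_good {m k : ℕ} (h : k < m) {a : KK} (ha : SS.D m a = 0) (e : ℕ) (g : GG)
    (hg : a ∈ Good (g + g m • up m k)) : a * SS.pi m k ^ (e + 1) ∈ Good g ∧
      cs g (a * SS.pi m k ^ (e + 1)) = if g m ≤ 0 then cs (g + g m • up m k) a else 0 := by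
  obtain ⟨Q, hQ⟩ := exists_mc e
  have key : HasPol g (a * SS.pi m k ^ (e + 1)) (if g m ≤ 0 then
      Q.comp (C ((-g m).toNat : ℚ) * X) * Pl (g + g m • up m k) a else 0) := by
    intro t ht
    have e1 : t • g + (t • g) m • up m k = t • (g + g m • up m k) := by
      rw [smul_add, Finsupp.smul_apply, smul_assoc]
    have e2 : (t • g) m = t * g m := by simp
    rw [co_pi_pow h ha, e1, Pl_spec hg t ht, e2]
    by_cases h1 : g m ≤ 0
    · have e3 : (-((t : ℤ) * g m)).toNat = (-g m).toNat * t := by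
        obtain ⟨n, hn⟩ := Int.eq_ofNat_of_zero_le (neg_nonneg.2 h1)
        rw [← mul_neg, hn, ← Nat.cast_mul, Int.toNat_natCast, Int.toNat_natCast, mul_comm]
      rw [if_pos h1, if_pos (mul_nonpos_of_nonneg_of_nonpos (by positivity) h1), e3, ← hQ]
      simp
    · rw [if_neg h1, if_neg (not_le.2 (mul_pos (by exact_mod_cast ht) (not_le.1 h1)))]; simp
  refine ⟨⟨_, key⟩, ?_⟩
  simp only [cs, LinearMap.comp_apply, lcoeff_apply, key.eq]
  split_ifs
  · have := hQ 0
    rw [Nat.cast_zero, Nat.multichoose_zero_right] at this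
    rw [mul_coeff_zero, coeff_zero_eq_eval_zero (Q.comp _)]
    simp [this]
  · simp

noncomputable def OO (m : ℕ) : Subalgebra ℚ KK :=
  Algebra.adjoin ℚ {a | ∃ i k, i < m ∧ k < m ∧ a = SS.pi i k}

theorem pi_OO {m i k : ℕ} (hi : i < m) (hk : k < m) : SS.pi i k ∈ OO m :=
  Algebra.subset_adjoin ⟨i, k, hi, hk, rfl⟩

theorem OO_mono {m : ℕ} : OO m ≤ OO (m + 1) :=
  Algebra.adjoin_mono fun _ ⟨i, k, hi, hk, h⟩ => ⟨i, k, by omega, by omega, h⟩

theorem OO_D {m : ℕ} {a : KK} (ha : a ∈ OO m) : SS.D m a = 0 := by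
  refine Algebra.adjoin_le (S := kerD (SS.D m)) ?_ ha
  rintro _ ⟨i, k, hi, hk, rfl⟩
  change SS.D m _ = 0
  rw [Dat.D_pi, if_neg hi.ne', if_neg hk.ne']; simp

theorem OO_ind {m : ℕ} (W : Submodule ℚ KK) (h1 : ∀ a ∈ OO m, a ∈ W)
    (h2 : ∀ a ∈ OO m, ∀ k < m, ∀ e, a * SS.pi m k ^ (e + 1) ∈ W) : ∀ F ∈ OO (m + 1), F ∈ W := by
  set U := Submodule.span ℚ {F | ∃ a ∈ OO m, ∃ b, F = a * b ∧
    (b = 1 ∨ ∃ k < m, ∃ e, b = SS.pi m k ^ (e + 1))} with hU
  have hUW : U ≤ W := by
    refine Submodule.span_le.2 ?_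
    rintro _ ⟨a, ha, b, rfl, rfl | ⟨k, hk, e, rfl⟩⟩
    · rw [mul_one]; exact h1 a ha
    · exact h2 a ha k hk e
  have m1 : ∀ a ∈ OO m, a ∈ U := fun a ha =>
    Submodule.subset_span ⟨a, ha, 1, (mul_one a).symm, Or.inl rfl⟩
  have m2 : ∀ a ∈ OO m, ∀ k < m, ∀ e, a * SS.pi m k ^ (e + 1) ∈ U := fun a ha k hk e =>
    Submodule.subset_span ⟨a, ha, _, rfl, Or.inr ⟨k, hk, e, rfl⟩⟩
  have lift : ∀ c : KK, (∀ a ∈ OO m, c * a ∈ U) →
      (∀ a ∈ OO m, ∀ k < m, ∀ e, c * (a * SS.pi m k ^ (e + 1)) ∈ U) → ∀ u ∈ U, c * u ∈ U := by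
    intro c k1 k2 u hu
    induction hu using Submodule.span_induction with
    | mem u hu =>
      obtain ⟨a, ha, b, rfl, rfl | ⟨k, hk, e, rfl⟩⟩ := hu
      · rw [mul_one]; exact k1 a ha
      · exact k2 a ha k hk e
    | zero => simp
    | add x y _ _ hx hy => rw [mul_add]; exact U.add_mem hx hy
    | smul r x _ hx => rw [mul_smul_comm]; exact U.smul_mem r hx
  have m3 : ∀ k < m, ∀ u ∈ U, SS.pi m k * u ∈ U := by
    intro k hk
    refine lift _ (fun a ha => by simpa [mul_comm] using m2 a ha k hk 0) fun a ha l hl e => ?_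
    by_cases hkl : k = l
    · subst hkl
      rw [mul_left_comm, ← pow_succ']; exact m2 a ha k hk _
    have key : ∀ e, ∀ a ∈ OO m, SS.pi m k * (a * SS.pi m l ^ e) ∈ U := by
      intro e
      induction e with
      | zero => intro a ha; simpa [mul_comm] using m2 a ha k hk 0
      | succ e ih =>
        intro a ha
        have : SS.pi m k * (a * SS.pi m l ^ (e + 1)) =
            SS.pi m k * (a * SS.pi k l * SS.pi m l ^ e) + a * SS.pi l k * SS.pi m l ^ (e + 1) := by
          linear_combination a * SS.pi m l ^ e * SS.pi_mul hk.ne' hl.ne' hkl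
        rw [this]
        exact U.add_mem (ih _ ((OO m).mul_mem ha (pi_OO hk hl)))
          (m2 _ ((OO m).mul_mem ha (pi_OO hl hk)) l hl e)
    exact key _ a ha
  have main : ∀ F ∈ OO (m + 1), ∀ u ∈ U, F * u ∈ U := by
    intro F hF
    induction hF using Algebra.adjoin_induction with
    | mem F hF =>
      obtain ⟨i, k, hi, hk, rfl⟩ := hF
      rcases (Nat.lt_succ_iff.1 hi).eq_or_lt with rfl | hi' <;>
        rcases (Nat.lt_succ_iff.1 hk).eq_or_lt with rfl | hk'
      · simp [Dat.pi_self]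
      · exact m3 k hk'
      · intro u hu
        rw [eq_sub_of_add_eq (SS.pi_add hi'.ne), sub_mul, one_mul]
        exact U.sub_mem hu (m3 i hi' u hu)
      · refine lift _ (fun a ha => m1 _ ((OO m).mul_mem (pi_OO hi' hk') ha)) fun a ha l hl e => ?_
        rw [← mul_assoc]
        exact m2 _ ((OO m).mul_mem (pi_OO hi' hk') ha) l hl e
    | algebraMap r => intro u hu; rw [← Algebra.smul_def]; exact U.smul_mem r hu
    | add x y _ _ hx hy => intro u hu; rw [add_mul]; exact U.add_mem (hx u hu) (hy u hu)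
    | mul x y _ _ hx hy => intro u hu; rw [mul_assoc]; exact hx _ (hy u hu)
  intro F hF
  simpa using hUW (main F hF 1 (m1 1 (OO m).one_mem))

theorem OO_good (m : ℕ) : ∀ g, ∀ F ∈ OO m, F ∈ Good g := by
  induction m with
  | zero =>
    intro g F hF
    have : OO 0 = ⊥ := by simp [OO]
    rw [this, Algebra.mem_bot] at hF
    obtain ⟨r, rfl⟩ := hF
    rw [Algebra.algebraMap_eq_smul_one]
    refine (Good g).smul_mem r ⟨if g = 0 then 1 else 0, fun t ht => ?_⟩
    rw [← mono_zero, co_mono]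
    by_cases h : g = 0
    · simp [h]
    · rw [if_neg h, if_neg (smul_ne_zero (by omega) h), eval_zero]
  | succ m ih =>
    intro g
    exact OO_ind _ (ih g) fun a ha k hk e => (pi_pow_good hk (OO_D ha) e g (ih _ a ha)).1

theorem OO_null (m : ℕ) : ∀ g, ∀ i < m, ∀ k < m, ∀ F ∈ OO m,
    cs g (F * (SS.pi i k * SS.pi k i)) = 0 := by
  induction m with
  | zero => intro g i hi; omega
  | succ m ih =>
    intro g
    have red : ∀ c : KK, (∀ a ∈ OO m, cs g (a * c) = 0) →
        (∀ a ∈ OO m, ∀ l < m, ∀ e, cs g (a * SS.pi m l ^ (e + 1) * c) = 0) →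
        ∀ F ∈ OO (m + 1), cs g (F * c) = 0 := fun c k1 k2 =>
      OO_ind (LinearMap.ker ((cs g).comp (LinearMap.mulRight ℚ c))) k1 k2
    have val : ∀ a ∈ OO m, ∀ l < m, ∀ e, cs g (a * SS.pi m l ^ (e + 1)) =
        if g m ≤ 0 then cs (g + g m • up m l) a else 0 := fun a ha l hl e =>
      (pi_pow_good hl (OO_D ha) e g (OO_good m _ a ha)).2
    have c1 : ∀ i < m, ∀ k < m, ∀ F ∈ OO (m + 1), cs g (F * (SS.pi i k * SS.pi k i)) = 0 := by
      intro i hi k hk
      refine red _ (ih g i hi k hk) fun a ha l hl e => ?_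
      rw [mul_right_comm, val _ ((OO m).mul_mem ha ((OO m).mul_mem (pi_OO hi hk) (pi_OO hk hi)))
        l hl, ih _ i hi k hk a ha, ite_self]
    have c2 : ∀ k < m, ∀ F ∈ OO (m + 1), cs g (F * (SS.pi m k * SS.pi k m)) = 0 := by
      intro k hk
      have e0 : SS.pi k m = 1 - SS.pi m k := eq_sub_of_add_eq (SS.pi_add hk.ne)
      have base : ∀ a ∈ OO m, ∀ e, cs g (a * SS.pi m k ^ e * (SS.pi m k * SS.pi k m)) = 0 := by
        intro a ha e
        rw [show a * SS.pi m k ^ e * (SS.pi m k * SS.pi k m) =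
          a * SS.pi m k ^ (e + 1) - a * SS.pi m k ^ (e + 1 + 1) by rw [e0]; ring, map_sub,
          val a ha k hk, val a ha k hk, sub_self]
      refine red _ (fun a ha => by simpa using base a ha 0) fun a ha l hl e => ?_
      by_cases hkl : l = k
      · subst hkl; exact base a ha _
      have key : ∀ e, ∀ a ∈ OO m, cs g (a * SS.pi m l ^ e * (SS.pi m k * SS.pi k m)) = 0 := by
        intro e
        induction e with
        | zero => intro a ha; simpa using base a ha 0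
        | succ e ihe =>
          intro a ha
          have r1 := SS.pi_mul hl.ne' hk.ne' hkl
          have r2 := SS.pi_add hkl
          have : a * SS.pi m l ^ (e + 1) * (SS.pi m k * SS.pi k m) =
              a * SS.pi m l ^ e * (SS.pi m l - SS.pi m k) * (SS.pi l k * SS.pi k l) +
                a * SS.pi k l * SS.pi m l ^ e * (SS.pi m k * SS.pi k m) := by
            rw [e0]
            linear_combination a * SS.pi m l ^ e * (1 - SS.pi m k - SS.pi l k) * r1 -
              a * SS.pi m l ^ e * SS.pi l k * SS.pi m l * r2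
          have hm : m < m + 1 := Nat.lt_succ_self m
          rw [this, map_add, ihe _ ((OO m).mul_mem ha (pi_OO hk hl)), add_zero]
          exact c1 l hl k hk _ ((OO (m + 1)).mul_mem ((OO (m + 1)).mul_mem (OO_mono ha)
            ((OO (m + 1)).pow_mem (pi_OO hm (hl.trans hm)) e))
            ((OO (m + 1)).sub_mem (pi_OO hm (hl.trans hm)) (pi_OO hm (hk.trans hm))))
      exact key _ a ha
    intro i hi k hk F hF
    rcases (Nat.lt_succ_iff.1 hi).eq_or_lt with rfl | hi' <;>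
      rcases (Nat.lt_succ_iff.1 hk).eq_or_lt with rfl | hk'
    · simp [Dat.pi_self]
    · exact c2 k hk' F hF
    · rw [mul_comm (SS.pi i k)]; exact c2 i hi' F hF
    · exact c1 i hi' k hk' F hF

/-- the first `m` variables -/
noncomputable def Sm (m : ℕ) : Dat KK (Fin m) where
  x i := SS.x i
  inj := fun _ _ h => Fin.ext (SS.inj h)
  ne := fun i => SS.ne i
  D i := SS.D i
  Dx := fun l i => by simp only [SS.Dx, Fin.ext_iff]

theorem Sm_O (m : ℕ) : (Sm m).O ≤ OO m :=
  Algebra.adjoin_mono fun _ ⟨i, k, h⟩ => ⟨i, k, i.2, k.2, h⟩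

noncomputable def Tm (m : ℕ) (g : GG) : (Sm m).Fn where
  lin := ln g
  cst := cs g
  γ i := g i
  H1 := fun k F hF => ln_D (OO_good m g F (Sm_O m hF)) k
  H2 := fun i k F hF => OO_null m g i i.2 k k.2 F (Sm_O m hF)

end Pool.Agent.P.MP_c2f774_co
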